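import Pool.Agent.H63.TD.Fin

/-!
# Bounded depth over partially symmetric formulas with counting
-/

set_option autoImplicit false

namespace Pool.Agent.Results.MP_576eff_lc.BoundedDepthOverCounting

open Pool.Agent.H63.TC (Refutation Built Sym)
open Pool.Agent.H63.TD
open Pool.Agent.H16.TP (Ax)

/-- There is `C` such that for each number `b` of colours there is a finite set `T` of first-order axioms such
that for all `n ≥ 2`:
(1) `T` has a refutation over `n` points of size at most `n ^ (C * b)` and depth at most `C`;
(2) for all `d`, `N` and `B ≥ 1`: if all members of all lines of a refutation of `T` over `n` points are obtained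
by at most `d` levels of conjunctions and negations from variables and from formulas of any depth, with any
symmetric gates, each of which is invariant under all elements of a group of permutations of the points that
has index at most `B` in the group of all permutations which preserve a colouring with `b` colours and fix `N`
points (group, colouring and fixed points may depend on the formula), then the refutation has size at least
`2 ^ ((n / (b * (N + 1))) ^ (1 / C ^ (d + 1)) / C) / B`;
(3) for all groups `Γ` of permutations of the points whose order is divisible by the prime power `p ^ h`, all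
`d` and `B ≥ 1`: if these formulas are invariant under subgroups of `Γ` of index at most `B`, the refutation has
size at least `2 ^ ((h / log n) ^ (1 / C ^ (d + 1)) / C) / B`. -/
theorem result : ∃ C : ℕ, 0 < C ∧ ∀ b : ℕ, 1 ≤ b →
    ∃ (S : Type) (ar : S → ℕ) (T : Set (Ax ar)), T.Finite ∧ (∀ A ∈ T, A.lits.Finite ∧ A.ex.Finite) ∧
      ∀ n : ℕ, 2 ≤ n →
        (∃ R : Refutation T (Fin n), R.size ≤ n ^ (C * b) ∧ ∀ a, R.C.rank a ≤ C) ∧
        (∀ (d N B : ℕ) (R : Refutation T (Fin n)), 1 ≤ B →
          (∀ Λ ∈ R.lines, ∀ x ∈ Λ, Built R.C (SymN R.C B b N) d x.node) →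
          (2 : ℝ) ^ (((n : ℝ) / (b * (N + 1))) ^ (1 / (C : ℝ) ^ (d + 1)) / C) ≤ B * R.size) ∧
        ∀ (Γ : Subgroup (Equiv.Perm (Fin n))) (p h d B : ℕ) (R : Refutation T (Fin n)), p.Prime →
          p ^ h ∣ Nat.card Γ → 1 ≤ B →
          (∀ Λ ∈ R.lines, ∀ x ∈ Λ, Built R.C (Sym R.C B Γ) d x.node) →
          (2 : ℝ) ^ (((h : ℝ) / Real.logb 2 n) ^ (1 / (C : ℝ) ^ (d + 1)) / C) ≤ B * R.size :=
  main

end Pool.Agent.Results.MP_576eff_lc.BoundedDepthOverCounting
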