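import Pool.Agent.H63.YQ.Fin
import Pool.Agent.H63.UC.Root
import Pool.Agent.H63.UE.Root

set_option autoImplicit false

/-!
# Proofs of the pigeonhole principle with partially symmetric formulas of arbitrary depth
-/

namespace Pool.Agent.Results.MP_576eff_lc.PartialSymmetry

open Pool.Agent.H63.YL

/-- Let `2 ^ 15 * n * t ≤ L ^ 2`. Refutations of the onto functional pigeonhole principle have size
at least `2 ^ t`
(1) if the members of each line are built in depth `d` from homogeneous formulas of arbitrary depth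
and size: each is invariant under all permutations which preserve some colouring of the pigeons and
some colouring of the holes in which all but `r ≤ n / t ^ C - 1` points, `C = c ^ (d + 1)`, have a
colour shared by `L` points;
(2) if each line is invariant under the permutations which preserve some colouring of the pigeons
and the holes in which all but `n / 100` points have a colour shared by `L` points.
Both conditions of (1), on `L` and on `r`, are needed:
(3) for `√n ≤ L ≤ n / 2` there are refutations of size `2 ^ (L ^ 2 / n + log n + 2) ^ 26` whose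
lines are built in depth `9` from homogeneous formulas with `r = 5 * L`;
(4) for `4 * k ≤ n` there are refutations of size `(n + 2) ^ (3000 * k ^ 2)`, polynomial for
constant `k`, in which all members of the lines are homogeneous with `L = n / 2` and `r = n / k`. -/
theorem result :
    (∃ c : ℕ, ∀ d n L r t : ℕ, c ^ (d + 1) ≤ t → n < 2 ^ t → 2 ^ 15 * n * t ≤ L ^ 2 →
      (r + 1) * t ^ c ^ (d + 1) ≤ n →
      ∀ R : Refutation (Fin (n + 1)) (Fin n), (∀ Λ ∈ R.lines, R.C.BuiltLine L r d Λ) →
        2 ^ t ≤ R.size) ∧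
    (∀ n L t : ℕ, 1 ≤ n → n < 2 ^ t → 2 ^ 15 * n * t ≤ L ^ 2 →
      ∀ R : Refutation (Fin (n + 1)) (Fin n),
        (∀ Λ ∈ R.lines, R.C.Homogeneous L (n / 100) Λ) → 2 ^ t ≤ R.size) ∧
    (∀ n L : ℕ, 1 ≤ n → n ≤ L ^ 2 → 2 * L ≤ n → ∃ R : Refutation (Fin (n + 1)) (Fin n),
      (∀ Λ ∈ R.lines, R.C.BuiltLine L (5 * L) 9 Λ) ∧
        R.size ≤ 2 ^ (L ^ 2 / n + Nat.log 2 n + 2) ^ 26) ∧
    ∀ n k : ℕ, 1 ≤ k → 4 * k ≤ n → ∃ R : Refutation (Fin (n + 1)) (Fin n),
      (∀ Λ ∈ R.lines, R.C.BuiltLine (n / 2) (n / k) 0 Λ) ∧ R.size ≤ (n + 2) ^ (3000 * k ^ 2) :=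
  ⟨Pool.Agent.H63.YQ.plus, fun _ _ _ h1 h2 h3 R h4 => lower h1 h2 h3 R h4,
    fun _ _ h1 h2 h3 => Pool.Agent.H63.UC.short h1 h2 h3,
    fun _ _ h1 h2 => Pool.Agent.H63.UE.short h1 h2⟩

end Pool.Agent.Results.MP_576eff_lc.PartialSymmetry
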